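import Pool.Agent.Helper64.AS.Defs

set_option autoImplicit false

open Finset MeasureTheory

namespace Pool.Agent.Helper95.AS

open Pool.Agent.Helper64.AS

theorem ee_add (x y : ℝ) : ee (x + y) = ee x * ee y := by
  unfold ee
  rw [← Complex.exp_add]
  congr 1
  push_cast
  ring

theorem norm_ee (x : ℝ) : ‖ee x‖ = 1 := Complex.norm_exp_ofReal_mul_I _

theorem ee_int (k : ℤ) : ee k = 1 := by
  unfold ee
  have h : (((2 * Real.pi * (k : ℝ) : ℝ) : ℂ) * Complex.I)
      = (k : ℂ) * (2 * (Real.pi : ℂ) * Complex.I) := by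
    push_cast
    ring
  rw [h]
  exact Complex.exp_int_mul_two_pi_mul_I k

theorem ee_zero : ee 0 = 1 := by
  have := ee_int 0
  simpa using this

theorem conj_ee (x : ℝ) : (starRingEnd ℂ) (ee x) = ee (-x) := by
  unfold ee
  rw [← Complex.exp_conj]
  congr 1
  rw [map_mul, Complex.conj_I, Complex.conj_ofReal]
  push_cast
  ring

theorem continuous_ee : Continuous ee := by
  unfold ee
  fun_prop

theorem norm_dir_le (M : ℕ) (x : ℝ) : ‖dir M x‖ ≤ M := by
  unfold dir
  calc ‖∑ j ∈ range M, ee (j * x)‖ ≤ ∑ j ∈ range M, ‖ee (j * x)‖ := norm_sum_le _ _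
    _ = M := by simp [norm_ee]

theorem fej_nonneg (M : ℕ) (x : ℝ) : 0 ≤ fej M x := by
  unfold fej
  positivity

theorem fej_le (M : ℕ) (x : ℝ) : fej M x ≤ M := by
  unfold fej
  rcases Nat.eq_zero_or_pos M with h | h
  · subst h
    simp
  · have hM : (0 : ℝ) < M := by exact_mod_cast h
    rw [div_le_iff₀ hM]
    have h1 := norm_dir_le M x
    have h2 := norm_nonneg (dir M x)
    nlinarith

theorem dir_add_int (M : ℕ) (x : ℝ) (k : ℤ) : dir M (x + k) = dir M x := by
  unfold dir
  refine Finset.sum_congr rfl fun j _ => ?_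
  have h : (j : ℝ) * (x + k) = (j : ℝ) * x + ((j * k : ℤ) : ℝ) := by
    push_cast
    ring
  rw [h, ee_add, ee_int, mul_one]

theorem fej_add_int (M : ℕ) (x : ℝ) (k : ℤ) : fej M (x + k) = fej M x := by
  unfold fej
  rw [dir_add_int]

theorem double_sum (M : ℕ) (x : ℝ) :
    ∑ i ∈ range M, ∑ j ∈ range M, ee (((i : ℝ) - j) * x) = ((‖dir M x‖ ^ 2 : ℝ) : ℂ) := by
  have h1 : ((‖dir M x‖ ^ 2 : ℝ) : ℂ) = dir M x * (starRingEnd ℂ) (dir M x) := by
    rw [Complex.mul_conj, Complex.normSq_eq_norm_sq]
  rw [h1]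
  unfold dir
  rw [map_sum, Finset.sum_mul_sum]
  refine Finset.sum_congr rfl fun i _ => Finset.sum_congr rfl fun j _ => ?_
  rw [conj_ee, ← ee_add]
  congr 1
  ring

theorem double_sum' (M : ℕ) (x : ℝ) (hM : 1 ≤ M) :
    ∑ i ∈ range M, ∑ j ∈ range M, ee (((i : ℝ) - j) * x) = ((M * fej M x : ℝ) : ℂ) := by
  rw [double_sum]
  congr 1
  unfold fej
  have hM' : (M : ℝ) ≠ 0 := by
    have : (0 : ℝ) < M := by exact_mod_cast hM
    exact this.ne'
  field_simp

theorem norm_ee_sub_one (x : ℝ) : ‖ee x - 1‖ = 2 * |Real.sin (Real.pi * x)| := by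
  have h := Complex.norm_exp_I_mul_ofReal_sub_one (2 * Real.pi * x)
  unfold ee
  rw [mul_comm _ Complex.I, h]
  have : (2 * Real.pi * x) / 2 = Real.pi * x := by ring
  rw [this, norm_mul]
  simp

theorem two_mul_min_le_sin (x : ℝ) (h0 : 0 < x) (h1 : x < 1) :
    2 * min x (1 - x) ≤ Real.sin (Real.pi * x) := by
  have key : ∀ y : ℝ, 0 ≤ y → y ≤ 1 / 2 → 2 * y ≤ Real.sin (Real.pi * y) := by
    intro y hy hy2
    have h := Real.mul_le_sin (x := Real.pi * y) (by positivity)
      (by nlinarith [Real.pi_pos])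
    have e : 2 / Real.pi * (Real.pi * y) = 2 * y := by
      field_simp
    linarith
  rcases le_total x (1 / 2) with h | h
  · have := key x h0.le h
    have h2 := min_le_left x (1 - x)
    linarith
  · have := key (1 - x) (by linarith) (by linarith)
    have h2 := min_le_right x (1 - x)
    have e : Real.sin (Real.pi * (1 - x)) = Real.sin (Real.pi * x) := by
      rw [mul_sub, mul_one, Real.sin_pi_sub]
    rw [e] at this
    linarith

theorem dir_mul (M : ℕ) (x : ℝ) : dir M x * (ee x - 1) = ee (M * x) - 1 := by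
  unfold dir
  have h : ∀ j : ℕ, ee (j * x) = ee x ^ j := by
    intro j
    induction j with
    | zero => simp [ee_zero]
    | succ n ih =>
      rw [pow_succ, ← ih, ← ee_add]
      congr 1
      push_cast
      ring
  rw [Finset.sum_congr rfl fun j _ => h j, h M]
  exact geom_sum_mul (ee x) M

theorem fej_le_far (M : ℕ) (x : ℝ) (hM : 1 ≤ M) (h0 : 0 < x) (h1 : x < 1) :
    fej M x ≤ 1 / (4 * M * (min x (1 - x)) ^ 2) := by
  have hM' : (0 : ℝ) < M := by exact_mod_cast hM
  have hm : 0 < min x (1 - x) := lt_min h0 (by linarith)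
  have hs := two_mul_min_le_sin x h0 h1
  have e1 : ‖dir M x‖ * ‖ee x - 1‖ = ‖ee (M * x) - 1‖ := by
    rw [← norm_mul, dir_mul]
  have e2 : ‖ee (M * x) - 1‖ ≤ 2 := by
    calc ‖ee (M * x) - 1‖ ≤ ‖ee (M * x)‖ + ‖(1 : ℂ)‖ := norm_sub_le _ _
      _ = 2 := by rw [norm_ee, norm_one]; norm_num
  have e3 : 4 * min x (1 - x) ≤ ‖ee x - 1‖ := by
    rw [norm_ee_sub_one]
    have := le_abs_self (Real.sin (Real.pi * x))
    linarith
  have e4 : ‖dir M x‖ * (2 * min x (1 - x)) ≤ 1 := by
    have h2 := norm_nonneg (dir M x)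
    nlinarith
  have e5 : (‖dir M x‖ * (2 * min x (1 - x))) ^ 2 ≤ 1 := by
    have h2 : 0 ≤ ‖dir M x‖ * (2 * min x (1 - x)) := by positivity
    nlinarith
  unfold fej
  rw [div_le_div_iff₀ hM' (by positivity)]
  nlinarith

theorem continuous_fej (M : ℕ) : Continuous (fej M) := by
  unfold fej dir
  have := continuous_ee
  fun_prop

theorem integral_ee (n : ℤ) (c : ℝ) :
    ∫ t in (0 : ℝ)..(2 * Real.pi), ee ((n : ℝ) * ((t - c) / (2 * Real.pi))) =
      if n = 0 then ((2 * Real.pi : ℝ) : ℂ) else 0 := by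
  have hpi : (Real.pi : ℂ) ≠ 0 := by exact_mod_cast Real.pi_ne_zero
  split_ifs with h
  · subst h
    simp [ee_zero]
  · have hn : ((n : ℂ) * Complex.I) ≠ 0 := by
      simp [h, Complex.I_ne_zero]
    have e : ∀ t : ℝ, ee ((n : ℝ) * ((t - c) / (2 * Real.pi))) =
        Complex.exp (-((n : ℂ) * c * Complex.I)) * Complex.exp ((n : ℂ) * Complex.I * t) := by
      intro t
      unfold ee
      rw [← Complex.exp_add]
      congr 1
      push_cast
      field_simp
      ring
    simp_rw [e]
    rw [intervalIntegral.integral_const_mul, integral_exp_mul_complex hn]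
    have e2 : Complex.exp ((n : ℂ) * Complex.I * ((2 * Real.pi : ℝ) : ℂ)) = 1 := by
      have := Complex.exp_int_mul_two_pi_mul_I n
      rw [← this]
      congr 1
      push_cast
      ring
    rw [e2]
    simp

theorem integral_fej (M : ℕ) (c : ℝ) (hM : 1 ≤ M) :
    ∫ t in (0 : ℝ)..(2 * Real.pi), fej M ((t - c) / (2 * Real.pi)) = 2 * Real.pi := by
  have hM' : (M : ℝ) ≠ 0 := by
    have : (0 : ℝ) < M := by exact_mod_cast hM
    exact this.ne'
  have hMc : (M : ℂ) ≠ 0 := by exact_mod_cast hM'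
  have hc := continuous_ee
  have h1 : ((∫ t in (0 : ℝ)..(2 * Real.pi), M * fej M ((t - c) / (2 * Real.pi)) : ℝ) : ℂ) =
      M * ((2 * Real.pi : ℝ) : ℂ) := by
    rw [← intervalIntegral.integral_ofReal]
    simp_rw [← double_sum' M _ hM]
    rw [intervalIntegral.integral_finsetSum]
    · have e : ∀ i ∈ range M, (∫ t in (0 : ℝ)..(2 * Real.pi), ∑ j ∈ range M,
          ee (((i : ℝ) - j) * ((t - c) / (2 * Real.pi)))) = ((2 * Real.pi : ℝ) : ℂ) := by
        intro i hi
        rw [intervalIntegral.integral_finsetSum]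
        · have e2 : ∀ j ∈ range M, (∫ t in (0 : ℝ)..(2 * Real.pi),
              ee (((i : ℝ) - j) * ((t - c) / (2 * Real.pi)))) =
              if j = i then ((2 * Real.pi : ℝ) : ℂ) else 0 := by
            intro j _
            have := integral_ee ((i : ℤ) - j) c
            push_cast at this
            rw [this]
            have h3 : ((i : ℤ) - j = 0) ↔ j = i := by
              constructor
              · intro h
                omega
              · intro h
                omega
            simp only [h3]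
            push_cast
            rfl
          rw [Finset.sum_congr rfl e2, Finset.sum_ite_eq' (range M) i]
          simp only [hi, if_true]
        · intro j _
          apply Continuous.intervalIntegrable
          fun_prop
      rw [Finset.sum_congr rfl e]
      simp
    · intro i _
      apply Continuous.intervalIntegrable
      fun_prop
  rw [intervalIntegral.integral_const_mul] at h1
  have h2 : (M : ℝ) * ∫ t in (0 : ℝ)..(2 * Real.pi), fej M ((t - c) / (2 * Real.pi)) =
      M * (2 * Real.pi) := by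
    exact_mod_cast h1
  exact mul_left_cancel₀ hM' h2

theorem s_fej : S_fej :=
  ⟨ee_add, norm_ee, ee_int, conj_ee, fej_nonneg, fej_le, fej_add_int, double_sum', fej_le_far,
    continuous_fej, integral_fej⟩

end Pool.Agent.Helper95.AS
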