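import Pool.Agent.Helper64.AS.Defs

set_option autoImplicit false

open Finset Filter

namespace Pool.Agent.Helper95.AS

open Pool.Agent.Helper64.AS Chebyshev

theorem theta_sub (X : ℕ) : θ ((4 * X : ℕ) : ℝ) - θ (X : ℝ) =
    ∑ p ∈ (Finset.Ioc X (4 * X)).filter Nat.Prime, Real.log p := by
  unfold Chebyshev.theta
  rw [Nat.floor_natCast, Nat.floor_natCast]
  have h : (Finset.Ioc 0 (4 * X)).filter Nat.Prime =
      (Finset.Ioc 0 X).filter Nat.Prime ∪ (Finset.Ioc X (4 * X)).filter Nat.Prime := by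
    rw [← Finset.filter_union, Finset.Ioc_union_Ioc_eq_Ioc (Nat.zero_le _) (by omega)]
  have hd : Disjoint ((Finset.Ioc 0 X).filter Nat.Prime)
      ((Finset.Ioc X (4 * X)).filter Nat.Prime) := by
    rw [Finset.disjoint_left]
    intro p hp hq
    simp only [Finset.mem_filter, Finset.mem_Ioc] at hp hq
    omega
  rw [h, Finset.sum_union hd]
  ring

theorem theta_sub_le (X : ℕ) (hX : 2 ≤ X) : θ ((4 * X : ℕ) : ℝ) - θ (X : ℝ) ≤
    ((Finset.Ioc X (4 * X)).filter Nat.Prime).card * (3 * Real.log X) := by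
  rw [theta_sub]
  have h3 : Real.log ((4 * X : ℕ) : ℝ) ≤ 3 * Real.log X := by
    have h4 : ((4 * X : ℕ) : ℝ) ≤ (X : ℝ) ^ 3 := by
      have : 4 * X ≤ X ^ 3 := by nlinarith [Nat.mul_le_mul hX hX]
      exact_mod_cast this
    calc Real.log ((4 * X : ℕ) : ℝ) ≤ Real.log ((X : ℝ) ^ 3) :=
          Real.log_le_log (by positivity) h4
      _ = 3 * Real.log X := by
        rw [Real.log_pow]
        norm_num
  calc ∑ p ∈ (Finset.Ioc X (4 * X)).filter Nat.Prime, Real.log p
      ≤ ∑ p ∈ (Finset.Ioc X (4 * X)).filter Nat.Prime, 3 * Real.log X := by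
        refine Finset.sum_le_sum fun p hp => ?_
        simp only [Finset.mem_filter, Finset.mem_Ioc] at hp
        refine le_trans (Real.log_le_log ?_ ?_) h3
        · exact_mod_cast hp.2.pos
        · exact_mod_cast hp.1.2
    _ = _ := by
        rw [Finset.sum_const, nsmul_eq_mul]

theorem theta_large : ∀ᶠ X : ℕ in atTop, (X : ℝ) ≤ θ ((4 * X : ℕ) : ℝ) - θ (X : ℝ) := by
  have h1 : Tendsto (fun x : ℝ => Real.log x / x ^ (1 / 4 : ℝ)) atTop (nhds 0) := by
    have := (isLittleO_log_rpow_atTop (r := 1 / 4) (by norm_num)).tendsto_div_nhds_zero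
    exact this
  have h2 : Tendsto (fun X : ℕ => ((4 * X + 1 : ℕ) : ℝ)) atTop atTop := by
    apply tendsto_natCast_atTop_atTop.comp
    apply Filter.tendsto_atTop_mono (f := fun X : ℕ => X)
    · intro n
      omega
    · exact tendsto_id
  have h3 := h1.comp h2
  have h4 : ∀ᶠ X : ℕ in atTop,
      Real.log ((4 * X + 1 : ℕ) : ℝ) / ((4 * X + 1 : ℕ) : ℝ) ^ (1 / 4 : ℝ) < 1 := by
    have := h3.eventually (gt_mem_nhds (show (0 : ℝ) < 1 by norm_num))
    simpa using this
  have h5 : ∀ᶠ X : ℕ in atTop, (100 : ℝ) ≤ ((4 * X + 1 : ℕ) : ℝ) ^ (1 / 4 : ℝ) := by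
    have := (tendsto_rpow_atTop (y := 1 / 4) (by norm_num)).comp h2
    exact this.eventually_ge_atTop 100
  filter_upwards [h4, h5, eventually_ge_atTop 2] with X h4 h5 hX
  have hX' : (2 : ℝ) ≤ X := by exact_mod_cast hX
  set y : ℝ := ((4 * X + 1 : ℕ) : ℝ) ^ (1 / 4 : ℝ) with hy
  have hy0 : 0 < y := by positivity
  have hy4 : y ^ 4 = 4 * X + 1 := by
    rw [hy, ← Real.rpow_natCast, ← Real.rpow_mul (by positivity)]
    norm_num
  have hl : Real.log ((4 * X + 1 : ℕ) : ℝ) < y := by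
    rw [div_lt_one hy0] at h4
    exact h4
  have g1 := theta_ge (4 * X)
  have g2 := theta_le_log4_mul_x (x := (X : ℝ)) (by positivity)
  have hl4 : Real.log 4 = 2 * Real.log 2 := by
    rw [show (4 : ℝ) = 2 ^ 2 by norm_num, Real.log_pow]
    norm_num
  rw [hl4] at g2
  have hl2 := Real.log_two_gt_d9
  have hsq : Real.sqrt ((4 * X : ℕ) : ℝ) ≤ y ^ 2 := by
    rw [Real.sqrt_le_left (by positivity)]
    rw [← pow_mul]
    norm_num
    rw [hy4]
    linarith
  have hlog1 : Real.log ((4 * X : ℕ) : ℝ) ≤ y := by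
    refine le_trans (Real.log_le_log (by positivity) ?_) hl.le
    push_cast
    linarith
  have hlog0 : 0 ≤ Real.log ((4 * X : ℕ) : ℝ) := Real.log_natCast_nonneg _
  have hlog2 : Real.log (((4 * X : ℕ) : ℝ) + 1) ≤ y := by
    have e : (((4 * X : ℕ) : ℝ) + 1) = ((4 * X + 1 : ℕ) : ℝ) := by push_cast; ring
    rw [e]
    exact hl.le
  have hprod : Real.sqrt ((4 * X : ℕ) : ℝ) * Real.log ((4 * X : ℕ) : ℝ) ≤ y ^ 3 := by
    calc Real.sqrt ((4 * X : ℕ) : ℝ) * Real.log ((4 * X : ℕ) : ℝ) ≤ y ^ 2 * y :=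
          mul_le_mul hsq hlog1 hlog0 (by positivity)
      _ = y ^ 3 := by ring
  have hmain : y + 2 * y ^ 3 ≤ 0.05 * y ^ 4 := by
    have : 0 < y ^ 3 := by positivity
    have h6 : y ^ 4 = y * y ^ 3 := by ring
    have h7 : 100 * y ^ 3 ≤ y * y ^ 3 := by nlinarith
    have h8 : y ≤ y ^ 3 := by
      have : (1 : ℝ) ≤ y ^ 2 := by nlinarith
      nlinarith
    nlinarith
  have hcast : ((4 * X : ℕ) : ℝ) = 4 * X := by push_cast; ring
  rw [hcast] at g1 hlog1 hlog2 hprod ⊢
  have e1 : 2 * Real.sqrt (4 * (X : ℝ)) * Real.log (4 * X) ≤ 2 * y ^ 3 := by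
    nlinarith
  nlinarith

theorem s_primes : S_primes := by
  obtain ⟨X₀, hX₀⟩ := eventually_atTop.mp theta_large
  have hl2 : 0 < Real.log 2 := Real.log_pos (by norm_num)
  refine ⟨min (1 / 3) (Real.log 2 / (X₀ + 1)), by positivity, ?_⟩
  intro X hX
  have hX' : (2 : ℝ) ≤ X := by exact_mod_cast hX
  have hlX : 0 < Real.log X := Real.log_pos (by linarith)
  rw [div_le_iff₀ hlX]
  rcases le_total X₀ X with h | h
  · have h1 := hX₀ X h
    have h2 := theta_sub_le X hX
    have h3 : min (1 / 3) (Real.log 2 / (X₀ + 1)) * (X : ℝ) ≤ 1 / 3 * X := by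
      gcongr
      exact min_le_left _ _
    nlinarith
  · have h3 : min (1 / 3) (Real.log 2 / (X₀ + 1)) * (X : ℝ) ≤ Real.log 2 := by
      calc min (1 / 3) (Real.log 2 / (X₀ + 1)) * (X : ℝ) ≤ Real.log 2 / (X₀ + 1) * X := by
            gcongr
            exact min_le_right _ _
        _ ≤ Real.log 2 / (X₀ + 1) * (X₀ + 1) := by
            have : (X : ℝ) ≤ X₀ := by exact_mod_cast h
            gcongr
            linarith
        _ = Real.log 2 := by field_simp
    have h4 : 1 ≤ ((Finset.Ioc X (4 * X)).filter Nat.Prime).card := by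
      rw [Nat.one_le_iff_ne_zero, Finset.card_ne_zero]
      obtain ⟨p, hp, h5, h6⟩ := Nat.exists_prime_lt_and_le_two_mul X (by omega)
      exact ⟨p, by
        simp only [Finset.mem_filter, Finset.mem_Ioc]
        exact ⟨⟨h5, by omega⟩, hp⟩⟩
    have h5 : (1 : ℝ) ≤ ((Finset.Ioc X (4 * X)).filter Nat.Prime).card := by exact_mod_cast h4
    have h6 : Real.log 2 ≤ Real.log X := Real.log_le_log (by norm_num) hX'
    nlinarith

end Pool.Agent.Helper95.AS
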